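import Pool.Agent.N352.PF.Cnt

/-!
# The number of integers of a number field in a residue class modulo an ideal, upper bound

Project PF (helper783, helper352). By helper75.
-/

set_option autoImplicit false

open NumberField
open scoped Classical

namespace Pool.Agent.N75.PF

open Pool.Agent.N352.PF

section

variable {F : Type} [Field F] [NumberField F]

/-- the cell of an integer -/
noncomputable def cell (s : ℝ) (x : 𝓞 F) (w : InfinitePlace F) : ℤ × ℤ :=
  (⌊(w.embedding (x : F)).re / s⌋, ⌊(w.embedding (x : F)).im / s⌋)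

theorem im_real {w : InfinitePlace F} (hw : w.IsReal) (x : F) : (w.embedding x).im = 0 := by
  have h1 := InfinitePlace.isReal_iff.mp hw
  have h2 : (starRingEnd ℂ) (w.embedding x) = w.embedding x := by
    have h3 := congrArg (fun φ : F →+* ℂ => φ x) (ComplexEmbedding.isReal_iff.mp h1)
    simpa using h3
  exact Complex.conj_eq_iff_im.mp h2

/-- elements of the ideal with small conjugates are zero -/
theorem small_zero (I : Ideal (𝓞 F)) (y : 𝓞 F) (hy : y ∈ I) (s : ℝ) (hs : 0 < s)
    (hN : (2 * s) ^ dg F = Ideal.absNorm I)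
    (hw : ∀ w : InfinitePlace F, |(w.embedding (y : F)).re| < s ∧
      |(w.embedding (y : F)).im| < s) : y = 0 := by
  by_contra hy0
  have h1 : ∀ w : InfinitePlace F, w (y : F) ≤ 3 / 2 * s := by
    intro w
    obtain ⟨h2, h3⟩ := hw w
    rw [← InfinitePlace.norm_embedding_eq]
    have h4 : ‖w.embedding (y : F)‖ ^ 2 = (w.embedding (y : F)).re ^ 2 +
        (w.embedding (y : F)).im ^ 2 := by
      rw [← Complex.normSq_eq_norm_sq, Complex.normSq_apply]
      ring
    have h5 : (w.embedding (y : F)).re ^ 2 ≤ s ^ 2 := sq_le_sq' (abs_lt.mp h2).1.le (abs_lt.mp h2).2.le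
    have h6 : (w.embedding (y : F)).im ^ 2 ≤ s ^ 2 := sq_le_sq' (abs_lt.mp h3).1.le (abs_lt.mp h3).2.le
    refine (sq_le_sq₀ (norm_nonneg _) (by positivity)).mp ?_
    nlinarith
  have h2 : ∏ w : InfinitePlace F, w (y : F) ^ w.mult ≤ ∏ w : InfinitePlace F, (3 / 2 * s) ^ w.mult := by
    apply Finset.prod_le_prod
    · intro w _
      positivity
    · intro w _
      exact pow_le_pow_left₀ (apply_nonneg _ _) (h1 w) _
  rw [InfinitePlace.prod_eq_abs_norm, Finset.prod_pow_eq_pow_sum, InfinitePlace.sum_mult_eq] at h2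
  have hd : dg F ≠ 0 := Module.finrank_pos.ne'
  have h3 : (3 / 2 * s) ^ dg F < (2 * s) ^ dg F :=
    pow_lt_pow_left₀ (by linarith) (by positivity) hd
  have h4 : Ideal.absNorm I ≤ (Algebra.norm ℤ y).natAbs := by
    rw [← Ideal.absNorm_span_singleton]
    apply Nat.le_of_dvd
    · apply Nat.pos_of_ne_zero
      rw [Ne, Ideal.absNorm_eq_zero_iff, Ideal.span_singleton_eq_bot]
      exact hy0
    · apply Ideal.absNorm_dvd_absNorm_of_le
      rw [Ideal.span_singleton_le_iff_mem]
      exact hy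
  have h5 : ((Algebra.norm ℤ y).natAbs : ℝ) = ((|Algebra.norm ℚ (y : F)| : ℚ) : ℝ) := by
    rw [← Algebra.coe_norm_int, Nat.cast_natAbs]
    push_cast
    rfl
  have h6 : (Ideal.absNorm I : ℝ) ≤ ((Algebra.norm ℤ y).natAbs : ℝ) := by exact_mod_cast h4
  rw [h5, ← hN] at h6
  linarith

end

/-- The number of integers in a residue class modulo an ideal, upper bound. -/
theorem cu : Pool.Agent.N352.PF.S_CU := by
  intro F _ _
  refine ⟨6 ^ dg F, fun T I A hT hI => ?_⟩
  have hN : 0 < Ideal.absNorm I := Nat.pos_of_ne_zero (mt Ideal.absNorm_eq_zero_iff.mp hI)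
  have hN' : (0 : ℝ) < Ideal.absNorm I := by exact_mod_cast hN
  have hd : dg F ≠ 0 := Module.finrank_pos.ne'
  obtain ⟨ν, hν, hνd⟩ : ∃ ν : ℝ, 0 < ν ∧ ν ^ dg F = Ideal.absNorm I :=
    ⟨(Ideal.absNorm I : ℝ) ^ ((dg F : ℝ)⁻¹), Real.rpow_pos_of_pos hN' _,
      Real.rpow_inv_natCast_pow hN'.le hd⟩
  obtain ⟨s, hs, hsν⟩ : ∃ s : ℝ, 0 < s ∧ 2 * s = ν := ⟨ν / 2, by positivity, by ring⟩
  have hT' : (1 : ℝ) ≤ T := by exact_mod_cast hT
  set S : Set (𝓞 F) := {x ∈ Bal F T | x - A ∈ I} with hS
  have hinj : Set.InjOn (cell (F := F) s) S := by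
    intro x hx x' hx' hxx
    have h1 : x - x' ∈ I := by
      have := I.sub_mem hx.2 hx'.2
      rwa [sub_sub_sub_cancel_right] at this
    have h2 := small_zero I (x - x') h1 s hs (by rw [hsν, hνd]) (fun w => by
      have h3 := congrFun hxx w
      unfold cell at h3
      have h4 := Int.abs_sub_lt_one_of_floor_eq_floor (Prod.ext_iff.mp h3).1
      have h5 := Int.abs_sub_lt_one_of_floor_eq_floor (Prod.ext_iff.mp h3).2
      rw [← sub_div, abs_div, abs_of_pos hs, div_lt_one hs] at h4 h5
      have e : w.embedding ((x - x' : 𝓞 F) : F) =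
          w.embedding (x : F) - w.embedding (x' : F) := by
        rw [← map_sub]
        rfl
      rw [e, Complex.sub_re, Complex.sub_im]
      exact ⟨h4, h5⟩)
    exact sub_eq_zero.mp h2
  set J : Finset ℤ := Finset.Icc ⌊-(T : ℝ) / s⌋ ⌊(T : ℝ) / s⌋ with hJ
  set box : Finset (InfinitePlace F → ℤ × ℤ) :=
    Fintype.piFinset (fun w => J ×ˢ (if w.IsReal then ({0} : Finset ℤ) else J)) with hbox
  have hJm : ∀ a : ℝ, |a| ≤ T → ⌊a / s⌋ ∈ J := by
    intro a ha
    rw [hJ, Finset.mem_Icc]
    constructor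
    · apply Int.floor_le_floor
      exact div_le_div_of_nonneg_right (abs_le.mp ha).1 hs.le
    · apply Int.floor_le_floor
      exact div_le_div_of_nonneg_right (abs_le.mp ha).2 hs.le
  have hmaps : Set.MapsTo (cell (F := F) s) S box := by
    intro x hx
    rw [hbox, Finset.mem_coe, Fintype.mem_piFinset]
    intro w
    have h1 : ‖w.embedding (x : F)‖ ≤ T := hx.1 w.embedding
    have h2 : |(w.embedding (x : F)).re| ≤ T := (Complex.abs_re_le_norm _).trans h1
    have h3 : |(w.embedding (x : F)).im| ≤ T := (Complex.abs_im_le_norm _).trans h1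
    rw [Finset.mem_product]
    refine ⟨hJm _ h2, ?_⟩
    split_ifs with hw
    · rw [Finset.mem_singleton]
      show ⌊(w.embedding (x : F)).im / s⌋ = 0
      rw [im_real hw, zero_div, Int.floor_zero]
    · exact hJm _ h3
  have hcard : box.card = J.card ^ dg F := by
    have hsum : dg F = ∑ w : InfinitePlace F, w.mult := InfinitePlace.sum_mult_eq.symm
    rw [hbox, Fintype.card_piFinset, hsum, ← Finset.prod_pow_eq_pow_sum]
    apply Finset.prod_congr rfl
    intro w _
    rw [Finset.card_product]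
    unfold InfinitePlace.mult
    split_ifs
    · simp
    · rw [pow_two]
  have hfin : S.Finite := Set.Finite.of_injOn hmaps hinj box.finite_toSet
  refine ⟨hfin, ?_⟩
  have hle : S.ncard ≤ J.card ^ dg F := by
    rw [← hcard, ← Set.ncard_coe_finset]
    exact Set.ncard_le_ncard_of_injOn _ hmaps hinj box.finite_toSet
  have hJc : (J.card : ℝ) ≤ 2 * T / s + 2 := by
    have h1 : ⌊-(T : ℝ) / s⌋ ≤ ⌊(T : ℝ) / s⌋ := by
      apply Int.floor_le_floor
      apply div_le_div_of_nonneg_right _ hs.le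
      linarith
    have h2 : ((J.card : ℕ) : ℤ) = ⌊(T : ℝ) / s⌋ + 1 - ⌊-(T : ℝ) / s⌋ := by
      rw [hJ, Int.card_Icc, Int.toNat_of_nonneg (by omega)]
    have h3 : (J.card : ℝ) = (⌊(T : ℝ) / s⌋ : ℝ) + 1 - ⌊-(T : ℝ) / s⌋ := by exact_mod_cast h2
    have h4 := Int.floor_le ((T : ℝ) / s)
    have h5 := Int.lt_floor_add_one (-(T : ℝ) / s)
    rw [h3]
    have h6 : 2 * (T : ℝ) / s = T / s - (-(T : ℝ) / s) := by ring
    rw [h6]
    linarith
  have key : ((S.ncard * Ideal.absNorm I : ℕ) : ℝ) ≤
      ((6 ^ dg F * (T ^ dg F + Ideal.absNorm I) : ℕ) : ℝ) := by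
    push_cast
    calc (S.ncard : ℝ) * Ideal.absNorm I ≤ (J.card : ℝ) ^ dg F * ν ^ dg F := by
          rw [hνd]
          apply mul_le_mul_of_nonneg_right _ hN'.le
          exact_mod_cast hle
      _ = ((J.card : ℝ) * ν) ^ dg F := by rw [mul_pow]
      _ ≤ (6 * max (T : ℝ) ν) ^ dg F := by
          apply pow_le_pow_left₀ (by positivity)
          have h1 : (J.card : ℝ) * ν ≤ (2 * T / s + 2) * ν := mul_le_mul_of_nonneg_right hJc hν.le
          have h2 : (2 * (T : ℝ) / s + 2) * ν = 4 * T + 2 * ν := by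
            rw [← hsν]
            field_simp
            ring
          have h3 := le_max_left (T : ℝ) ν
          have h4 := le_max_right (T : ℝ) ν
          linarith
      _ = 6 ^ dg F * (max (T : ℝ) ν) ^ dg F := by rw [mul_pow]
      _ ≤ 6 ^ dg F * ((T : ℝ) ^ dg F + Ideal.absNorm I) := by
          apply mul_le_mul_of_nonneg_left _ (by positivity)
          rcases le_total (T : ℝ) ν with h | h
          · rw [max_eq_right h, hνd]
            have : (0 : ℝ) ≤ (T : ℝ) ^ dg F := by positivity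
            linarith
          · rw [max_eq_left h]
            linarith
  exact_mod_cast key

end Pool.Agent.N75.PF
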